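import Pool.Agent.Y661.HE.Stm3

/-!
Project HE: the coefficients of the energy are rational functions of the dimension.
-/

set_option autoImplicit false

open scoped BigOperators ENNReal
open MeasureTheory Filter

namespace Pool.Agent.Y86.HE.RAT

open Pool.Agent.H12R2.And (V ee)
open Pool.Agent.H4R2.HD (Av Gn)
open Pool.Agent.Y661.HE
open FinB (mB)

/-! ### rational functions of the dimension -/

theorem rf_add {f g : ℕ → ℝ} (hf : RF f) (hg : RF g) : RF (fun d => f d + g d) := by
  obtain ⟨p, k, hp⟩ := hf
  obtain ⟨q, l, hq⟩ := hg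
  refine ⟨p * Polynomial.X ^ l + q * Polynomial.X ^ k, k + l, fun d hd => ?_⟩
  have hd0 : (d : ℝ) ≠ 0 := by
    have : (0 : ℝ) < d := by exact_mod_cast hd
    exact this.ne'
  show f d + g d = _
  rw [hp d hd, hq d hd]
  simp only [Polynomial.map_add, Polynomial.map_mul, Polynomial.map_pow, Polynomial.map_X,
    Polynomial.eval_add, Polynomial.eval_mul, Polynomial.eval_pow, Polynomial.eval_X, pow_add]
  field_simp

theorem rf_mul {f g : ℕ → ℝ} (hf : RF f) (hg : RF g) : RF (fun d => f d * g d) := by
  obtain ⟨p, k, hp⟩ := hf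
  obtain ⟨q, l, hq⟩ := hg
  refine ⟨p * q, k + l, fun d hd => ?_⟩
  have hd0 : (d : ℝ) ≠ 0 := by
    have : (0 : ℝ) < d := by exact_mod_cast hd
    exact this.ne'
  show f d * g d = _
  rw [hp d hd, hq d hd]
  simp only [Polynomial.map_mul, Polynomial.eval_mul, pow_add]
  field_simp

theorem rf_const (c : ℚ) : RF (fun _ => (c : ℝ)) := by
  refine ⟨Polynomial.C c, 0, fun d _ => ?_⟩
  simp

theorem rf_inv : RF (fun d => 1 / (2 * (d : ℝ))) := by
  refine ⟨Polynomial.C (1 / 2), 1, fun d hd => ?_⟩
  have hd0 : (d : ℝ) ≠ 0 := by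
    have : (0 : ℝ) < d := by exact_mod_cast hd
    exact this.ne'
  simp only [Polynomial.map_C, Polynomial.eval_C, pow_one, map_div₀, map_one, map_ofNat]
  field_simp

theorem rf_congr {f g : ℕ → ℝ} (hf : RF f) (h : ∀ d, f d = g d) : RF g := by
  have : f = g := funext h
  rwa [← this]

/-! ### the functionals -/

/-- the vector with the coefficients `a` in the directions `i` -/
def pt {L d : ℕ} (a : Fin L → ℤ) (i : Fin L → Fin d) : V d := ∑ j, a j • ee (i j)

/-- the basic functionals -/
def MT (L : ℕ) (T : List (Fin L → ℤ)) (d : ℕ) (W : V d → ℝ) (x : V d) : ℝ :=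
  ∑ i : Fin L → Fin d, (T.map (fun a => W (x + pt a i))).prod

/-- the functionals -/
inductive FF : (∀ d : ℕ, (V d → ℝ) → V d → ℝ) → Prop
  | term (L : ℕ) (T : List (Fin L → ℤ)) : FF (MT L T)
  | add (f g : ∀ d : ℕ, (V d → ℝ) → V d → ℝ) : FF f → FF g → FF (fun d W x => f d W x + g d W x)
  | smul (c : ℕ → ℝ) (f : ∀ d : ℕ, (V d → ℝ) → V d → ℝ) : RF c → FF f →
      FF (fun d W x => c d * f d W x)

theorem ff_congr {f g : ∀ d : ℕ, (V d → ℝ) → V d → ℝ} (hf : FF f)
    (h : ∀ d W x, f d W x = g d W x) : FF g := by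
  have : f = g := funext fun d => funext fun W => funext fun x => h d W x
  rwa [← this]

theorem ff_one : FF (fun _ _ _ => 1) := by
  refine ff_congr (FF.term 0 []) fun d W x => ?_
  unfold MT
  simp

theorem ff_zero : FF (fun _ _ _ => 0) := by
  refine ff_congr (FF.smul _ _ (rf_const 0) ff_one) fun d W x => ?_
  simp

theorem ff_sum {ι : Type} (s : Finset ι) (f : ι → ∀ d : ℕ, (V d → ℝ) → V d → ℝ)
    (h : ∀ i ∈ s, FF (f i)) : FF (fun d W x => ∑ i ∈ s, f i d W x) := by
  classical
  induction s using Finset.induction_on with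
  | empty =>
    refine ff_congr ff_zero fun d W x => ?_
    simp
  | insert a s ha ih =>
    refine ff_congr (FF.add _ _ (h a (Finset.mem_insert_self _ _))
      (ih fun i hi => h i (Finset.mem_insert_of_mem hi))) fun d W x => ?_
    rw [Finset.sum_insert ha]

theorem pt_zero {L d : ℕ} (i : Fin L → Fin d) : pt (0 : Fin L → ℤ) i = 0 := by
  unfold pt
  simp

theorem ff_mulW {f : ∀ d : ℕ, (V d → ℝ) → V d → ℝ} (hf : FF f) :
    FF (fun d W x => W x * f d W x) := by
  induction hf with
  | term L T =>
    refine ff_congr (FF.term L (0 :: T)) fun d W x => ?_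
    unfold MT
    rw [Finset.mul_sum]
    refine Finset.sum_congr rfl fun i _ => ?_
    rw [List.map_cons, List.prod_cons, pt_zero, add_zero]
  | add f g _ _ ihf ihg =>
    refine ff_congr (FF.add _ _ ihf ihg) fun d W x => ?_
    ring
  | smul c f hc _ ih =>
    refine ff_congr (FF.smul _ _ hc ih) fun d W x => ?_
    ring

theorem pt_cons {L d : ℕ} (s : ℤ) (a : Fin L → ℤ) (i0 : Fin d) (i : Fin L → Fin d) :
    pt (Fin.cons s a : Fin (L + 1) → ℤ) (Fin.cons i0 i : Fin (L + 1) → Fin d) =
      s • ee i0 + pt a i := by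
  unfold pt
  rw [Fin.sum_univ_succ]
  simp only [Fin.cons_zero, Fin.cons_succ]

theorem sum_cons {L d : ℕ} (F : (Fin (L + 1) → Fin d) → ℝ) :
    ∑ i0 : Fin d, ∑ i : Fin L → Fin d, F (Fin.cons i0 i) = ∑ i : Fin (L + 1) → Fin d, F i := by
  rw [← Fintype.sum_prod_type']
  exact Fintype.sum_equiv (Fin.consEquiv (fun _ => Fin d)) _ _ fun p => rfl

theorem mt_shift (L : ℕ) (T : List (Fin L → ℤ)) (s : ℤ) (d : ℕ) (W : V d → ℝ) (x : V d) :
    ∑ i : Fin d, MT L T d W (x + s • ee i) =
      MT (L + 1) (T.map (fun a => (Fin.cons s a : Fin (L + 1) → ℤ))) d W x := by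
  unfold MT
  rw [← sum_cons]
  refine Finset.sum_congr rfl fun i0 _ => Finset.sum_congr rfl fun i _ => ?_
  rw [List.map_map]
  congr 1
  refine List.map_congr_left fun a _ => ?_
  show W _ = W _
  rw [pt_cons, add_assoc]

theorem av_add {d : ℕ} (f g : V d → ℝ) (x : V d) :
    Av (fun y => f y + g y) x = Av f x + Av g x := by
  unfold Av
  rw [← add_div, ← Finset.sum_add_distrib]
  congr 1
  refine Finset.sum_congr rfl fun i _ => ?_
  ring

theorem av_smul {d : ℕ} (c : ℝ) (f : V d → ℝ) (x : V d) :
    Av (fun y => c * f y) x = c * Av f x := by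
  unfold Av
  rw [← mul_div_assoc, Finset.mul_sum]
  congr 1
  refine Finset.sum_congr rfl fun i _ => ?_
  ring

theorem ff_av {f : ∀ d : ℕ, (V d → ℝ) → V d → ℝ} (hf : FF f) :
    FF (fun d W x => Av (f d W) x) := by
  induction hf with
  | term L T =>
    refine ff_congr (FF.smul _ _ rf_inv (FF.add _ _
      (FF.term (L + 1) (T.map (fun a => (Fin.cons 1 a : Fin (L + 1) → ℤ))))
      (FF.term (L + 1) (T.map (fun a => (Fin.cons (-1) a : Fin (L + 1) → ℤ)))))) fun d W x => ?_
    rw [← mt_shift, ← mt_shift]
    unfold Av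
    rw [Finset.sum_add_distrib, one_div_mul_eq_div]
    congr 1
    congr 1
    · refine Finset.sum_congr rfl fun i _ => ?_
      rw [one_smul]
    · refine Finset.sum_congr rfl fun i _ => ?_
      rw [neg_one_smul, sub_eq_add_neg]
  | add f g _ _ ihf ihg =>
    exact ff_congr (FF.add _ _ ihf ihg) fun d W x => (av_add _ _ _).symm
  | smul c f hc _ ih =>
    exact ff_congr (FF.smul _ _ hc ih) fun d W x => (av_smul _ _ _).symm

theorem ff_avi {f : ∀ d : ℕ, (V d → ℝ) → V d → ℝ} (hf : FF f) (m : ℕ) :
    FF (fun d W x => (Av^[m] (f d W)) x) := by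
  induction m with
  | zero => exact hf
  | succ m ih =>
    refine ff_congr (ff_av ih) fun d W x => ?_
    rw [Function.iterate_succ_apply']

theorem ff_gn {f : ∀ d : ℕ, (V d → ℝ) → V d → ℝ} (hf : FF f) (N : ℕ) :
    FF (fun d W x => Gn N (f d W) x) := by
  refine ff_congr (FF.smul _ _ rf_inv (ff_sum (Finset.range N) _ fun m _ => ff_avi hf m))
    fun d W x => ?_
  unfold Gn
  rw [one_div_mul_eq_div]

/-! ### expectations -/

theorem mB_sign : ∀ᵐ t ∂mB, t = 1 ∨ t = -1 := by
  unfold mB
  rw [ae_map_iff Measurable.of_discrete.aemeasurable]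
  · refine Eventually.of_forall fun b => ?_
    cases b <;> simp
  · exact (measurableSet_singleton (1 : ℝ)).union (measurableSet_singleton (-1 : ℝ))

theorem PI_sign (d : ℕ) : ∀ᵐ W ∂(PI d mB), ∀ y, W y = 1 ∨ W y = -1 := by
  rw [ae_all_iff]
  intro y
  have h1 : (PI d mB).map (fun W => W y) = mB := Measure.infinitePi_map_eval _ y
  have h2 := mB_sign
  have h3 : MeasurableSet {t : ℝ | t = 1 ∨ t = -1} :=
    (measurableSet_singleton (1 : ℝ)).union (measurableSet_singleton (-1 : ℝ))
  have h4 : AEMeasurable (fun W : V d → ℝ => W y) (PI d mB) :=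
    (measurable_pi_apply y).aemeasurable
  rw [← h1] at h2
  exact (ae_map_iff h4 h3).1 h2

theorem meas_prod {d : ℕ} (l : List (V d)) : Measurable fun W : V d → ℝ => (l.map W).prod := by
  induction l with
  | nil => simp
  | cons a l ih =>
    simp only [List.map_cons, List.prod_cons]
    exact (measurable_pi_apply a).mul ih

theorem abs_prod {d : ℕ} (l : List (V d)) (W : V d → ℝ) (hW : ∀ y, W y = 1 ∨ W y = -1) :
    |(l.map W).prod| = 1 := by
  induction l with
  | nil => simp
  | cons a l ih =>
    rw [List.map_cons, List.prod_cons, abs_mul, ih, mul_one]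
    rcases hW a with h | h
    · rw [h, abs_one]
    · rw [h, abs_neg, abs_one]

theorem int_prod {d : ℕ} (l : List (V d)) :
    Integrable (fun W : V d → ℝ => (l.map W).prod) (PI d mB) := by
  refine Integrable.of_bound (meas_prod l).aestronglyMeasurable 1 ?_
  filter_upwards [PI_sign d] with W hW
  rw [Real.norm_eq_abs, abs_prod l W hW]

/-- the sign of the coordinate `y` is changed -/
noncomputable def fl {d : ℕ} (y : V d) (x : V d) (t : ℝ) : ℝ :=
  open Classical in if x = y then -t else t

theorem fl_meas {d : ℕ} (y x : V d) : Measurable (fl y x) := by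
  unfold fl
  split_ifs
  · exact measurable_neg
  · exact measurable_id

theorem fl_PI {d : ℕ} (y : V d) :
    (PI d mB).map (fun W x => fl y x (W x)) = PI d mB := by
  have h1 := Measure.infinitePi_map_pi (μ := fun _ : Fin d → ℤ => mB)
    (f := fun x => fl y x) (fl_meas y)
  have h2 : ∀ x, mB.map (fl y x) = mB := by
    intro x
    unfold fl
    split_ifs
    · exact FinB.mB_neg
    · exact Measure.map_id
  simp only [h2] at h1
  exact h1

theorem fl_prod {d : ℕ} (y : V d) (l : List (V d)) (W : V d → ℝ) :
    (l.map (fun x => fl y x (W x))).prod =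
      (-1) ^ (open Classical in l.count y) * (l.map W).prod := by
  classical
  induction l with
  | nil => simp
  | cons a l ih =>
    rw [List.map_cons, List.prod_cons, ih, List.map_cons, List.prod_cons, List.count_cons]
    unfold fl
    by_cases h : a = y
    · rw [if_pos h, if_pos (by simpa using h), pow_succ]
      ring
    · rw [if_neg h, if_neg (by simpa using h), add_zero]
      ring

open Classical in
theorem int_val {d : ℕ} (l : List (V d)) :
    ∫ W : V d → ℝ, (l.map W).prod ∂(PI d mB) = if (∀ y, Even (l.count y)) then 1 else 0 := by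
  split_ifs with h
  · have h1 : (fun W : V d → ℝ => (l.map W).prod) =ᵐ[PI d mB] fun _ => 1 := by
      filter_upwards [PI_sign d] with W hW
      rw [Finset.prod_list_map_count]
      refine Finset.prod_eq_one fun y _ => ?_
      rcases hW y with h2 | h2
      · rw [h2, one_pow]
      · rw [h2, (h y).neg_one_pow]
    rw [integral_congr_ae h1]
    simp
  · push Not at h
    obtain ⟨y, hy⟩ := h
    have h1 : ∫ W : V d → ℝ, (l.map W).prod ∂(PI d mB) =
        ∫ W : V d → ℝ, (l.map (fun x => fl y x (W x))).prod ∂(PI d mB) := by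
      conv_lhs => rw [← fl_PI y]
      rw [integral_map]
      · exact (measurable_pi_iff.2 fun x =>
          (fl_meas y x).comp (measurable_pi_apply x)).aemeasurable
      · exact (meas_prod l).aestronglyMeasurable
    have h2 : ∀ W : V d → ℝ, (l.map (fun x => fl y x (W x))).prod = -(l.map W).prod := by
      intro W
      rw [fl_prod, (Nat.not_even_iff_odd.1 hy).neg_one_pow]
      ring
    simp only [h2] at h1
    rw [integral_neg] at h1
    linarith

/-! ### invariance under injections of the coordinates -/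

theorem pt_comp {L d d' : ℕ} (j : Fin d ↪ Fin d') (a : Fin L → ℤ) (i : Fin L → Fin d) :
    pt a (j ∘ i) = Function.extend j (pt a i) 0 := by
  funext k
  unfold pt
  rw [Finset.sum_apply]
  by_cases hk : ∃ l, j l = k
  · obtain ⟨l, rfl⟩ := hk
    rw [j.injective.extend_apply, Finset.sum_apply]
    refine Finset.sum_congr rfl fun t _ => ?_
    rw [Pi.smul_apply, Pi.smul_apply]
    congr 1
    show (Pi.single (j (i t)) (1 : ℤ) : V d') (j l) = (Pi.single (i t) (1 : ℤ) : V d) l
    by_cases h : l = i t
    · rw [h, Pi.single_eq_same, Pi.single_eq_same]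
    · rw [Pi.single_eq_of_ne h, Pi.single_eq_of_ne (fun h' => h (j.injective h'))]
  · rw [Function.extend_apply' _ _ _ hk]
    refine Finset.sum_eq_zero fun t _ => ?_
    rw [Pi.smul_apply]
    show a t • (Pi.single (j (i t)) (1 : ℤ) : V d') k = 0
    rw [Pi.single_eq_of_ne (fun h => hk ⟨i t, h.symm⟩), smul_zero]

open Classical in
theorem even_inv {L d d' : ℕ} (j : Fin d ↪ Fin d') (T : List (Fin L → ℤ)) (i : Fin L → Fin d) :
    (∀ y, Even ((T.map (fun a => pt a (j ∘ i))).count y)) ↔
      ∀ y, Even ((T.map (fun a => pt a i)).count y) := by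
  have hinj : Function.Injective (fun v : V d => (Function.extend j v 0 : V d')) := by
    intro v w hvw
    funext l
    have h1 := congrFun hvw (j l)
    simp only [j.injective.extend_apply] at h1
    exact h1
  have h1 : T.map (fun a => pt a (j ∘ i)) =
      (T.map (fun a => pt a i)).map (fun v : V d => (Function.extend j v 0 : V d')) := by
    rw [List.map_map]
    exact List.map_congr_left fun a _ => pt_comp j a i
  rw [h1]
  constructor
  · intro h y
    have h2 := h (Function.extend j y 0)
    rwa [List.count_map_of_injective _ _ hinj] at h2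
  · intro h y
    by_cases hy : ∃ v : V d, (Function.extend j v 0 : V d') = y
    · obtain ⟨v, rfl⟩ := hy
      rw [List.count_map_of_injective _ _ hinj]
      exact h v
    · rw [List.count_eq_zero_of_not_mem]
      · exact Even.zero
      · intro hmem
        obtain ⟨v, -, hv⟩ := List.mem_map.1 hmem
        exact hy ⟨v, hv⟩

/-! ### the expectations of the functionals -/

theorem ff_int (hP : S_PLY) {f : ∀ d : ℕ, (V d → ℝ) → V d → ℝ} (hf : FF f) :
    (∀ d, Integrable (fun W => f d W 0) (PI d mB)) ∧ RF (fun d => ∫ W, f d W 0 ∂(PI d mB)) := by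
  classical
  induction hf with
  | term L T =>
    have h0 : ∀ (d : ℕ) (W : V d → ℝ), MT L T d W 0 =
        ∑ i : Fin L → Fin d, ((T.map (fun a => pt a i)).map W).prod := by
      intro d W
      unfold MT
      refine Finset.sum_congr rfl fun i _ => ?_
      rw [List.map_map]
      simp only [zero_add]
      rfl
    constructor
    · intro d
      simp only [h0]
      exact integrable_finsetSum _ fun i _ => int_prod _
    · obtain ⟨p, hp⟩ := hP L (fun d i =>
        if (∀ y, Even ((T.map (fun a => pt a i)).count y)) then 1 else 0) (by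
          intro d d' j i
          simp only [even_inv j T i])
      refine ⟨p, 0, fun d _ => ?_⟩
      have h1 : ∫ W, MT L T d W 0 ∂(PI d mB) = ∑ i : Fin L → Fin d,
          if (∀ y, Even ((T.map (fun a => pt a i)).count y)) then (1 : ℝ) else 0 := by
        simp only [h0]
        rw [integral_finsetSum _ fun i _ => int_prod _]
        exact Finset.sum_congr rfl fun i _ => int_val _
      show ∫ W, MT L T d W 0 ∂(PI d mB) = _
      rw [h1, pow_zero, div_one, Polynomial.eval_natCast_map, ← hp d]
      simp
  | add f g _ _ ihf ihg =>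
    refine ⟨fun d => (ihf.1 d).add (ihg.1 d), rf_congr (rf_add ihf.2 ihg.2) fun d => ?_⟩
    rw [integral_add (ihf.1 d) (ihg.1 d)]
  | smul c f hc _ ih =>
    refine ⟨fun d => (ih.1 d).const_mul (c d), rf_congr (rf_mul hc ih.2) fun d => ?_⟩
    rw [integral_const_mul]

theorem un_ff (hP : S_PLY) (N n : ℕ) : FF (fun d W x => un N (PI d mB) n W x) := by
  induction n using Nat.strong_induction_on with
  | _ n ih =>
    have hen : ∀ k, k < n → RF (fun d => en N (PI d mB) (k + 1)) := fun k hk =>
      (ff_int hP (ff_mulW (ih k hk))).2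
    rcases n with _ | n
    · refine ff_congr ff_one fun d W x => ?_
      rw [un_zero]
    · have h1 : FF (fun d W x => gn N (PI d mB) n W x) := by
        refine ff_congr (FF.add _ _ (FF.smul _ _ (rf_const (-1)) (ff_mulW (ih n (by omega))))
          (ff_sum (Finset.range (n + 1)) _ fun k hk =>
            FF.smul _ _ (hen k (by have := Finset.mem_range.1 hk; omega))
              (ih (n - k) (by omega)))) fun d W x => ?_
        unfold gn
        push_cast
        ring
      refine ff_congr (ff_gn h1 N) fun d W x => ?_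
      rw [un_succ]

theorem main (hP : S_PLY) (_hB : S_BND) (_hM : S_MEA) : S_RAT := by
  intro N n
  rcases n with _ | n
  · refine rf_congr (rf_const 0) fun d => ?_
    show ((0 : ℚ) : ℝ) = 0
    norm_num
  · exact (ff_int hP (ff_mulW (un_ff hP N n))).2

end Pool.Agent.Y86.HE.RAT
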